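import Mathlib

/-!
The matching complex of a vertex set.
-/

namespace Pool.Agent.LibMatchingComplex

/-- The matching complex `M(V)`: its vertices are the two-element subsets `{x, y}` of `V`
(elements of `Sym2 α` off the diagonal with both endpoints in `V`), its faces are the finite sets of
pairwise disjoint such edges (the empty set included). -/
def matchingComplex {α : Type} (V : Set α) : Set (Finset (Sym2 α)) :=
  {σ | (∀ e ∈ σ, ¬ e.IsDiag ∧ ∀ x ∈ e, x ∈ V) ∧ ∀ e ∈ σ, ∀ f ∈ σ, e ≠ f → ∀ x ∈ e, x ∉ f}

end Pool.Agent.LibMatchingComplex
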