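import Pool.Agent.LibMatchingComplex.Defs
import Pool.Agent.LibSimpChain.Split

/-!
A chain null-homotopy of the inclusion of `M(V)` into `M(V ∪ {a, b'})` minus the edge `{a, b'}`.
-/

open Finset

namespace Pool.Agent.LibMatchingComplex

open Pool.Agent.LibSimpChain

lemma sg_erase_self {E : Type} [LinearOrder E] (x : E) (σ : Finset E) : sg x (σ.erase x) = sg x σ :=
  sg_erase_ge (lt_irrefl x)

section

attribute [-instance] Sym2.instDecidableEq

variable {α : Type} [LinearOrder (Sym2 α)]

omit [LinearOrder (Sym2 α)] in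
lemma mc_unique {V : Set α} {σ : Finset (Sym2 α)} (hσ : σ ∈ matchingComplex V) {v w w' : α}
    (h : s(v,w) ∈ σ) (h' : s(v,w') ∈ σ) : w = w' := by
  by_contra hne
  have hne' : s(v,w) ≠ s(v,w') := by
    intro h2
    rw [Sym2.congr_right] at h2
    exact hne h2
  exact hσ.2 _ h _ h' hne' v (Sym2.mem_mk_left v w) (Sym2.mem_mk_left v w')

lemma mc_erase {V : Set α} {σ : Finset (Sym2 α)} (hσ : σ ∈ matchingComplex V) (e : Sym2 α) :
    σ.erase e ∈ matchingComplex V := by
  refine ⟨fun f hf => hσ.1 f (Finset.mem_of_mem_erase hf), fun f hf g hg => ?_⟩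
  exact hσ.2 f (Finset.mem_of_mem_erase hf) g (Finset.mem_of_mem_erase hg)

open Classical in
/-- add the edge `{a, v}` to the matchings in which `v` is free -/
noncomputable def hop (a v : α) : Ch (Sym2 α) →ₗ[ℤ] Ch (Sym2 α) :=
  Finsupp.linearCombination ℤ
    (fun σ : Finset (Sym2 α) => if ∀ e ∈ σ, v ∉ e then wd s(a,v) (Finsupp.single σ (1:ℤ)) else 0)

open Classical in
lemma hop_single (a v : α) (σ : Finset (Sym2 α)) : hop a v (Finsupp.single σ 1) =
    if ∀ e ∈ σ, v ∉ e then wd s(a,v) (Finsupp.single σ (1:ℤ)) else 0 := by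
  simp [hop]

/-- the term in which the edge `{v, w}` is replaced by `{a, v}` -/
noncomputable def QQ (a v w : α) (σ : Finset (Sym2 α)) : Ch (Sym2 α) :=
  if s(v,w) ∈ σ then sg s(v,w) σ • wd s(a,v) (Finsupp.single (σ.erase s(v,w)) 1) else 0

open Classical in
lemma lemmaA {V : Finset α} {a v : α} {σ : Finset (Sym2 α)}
    (hσ : σ ∈ matchingComplex (V : Set α)) :
    bdry (hop a v (Finsupp.single σ 1)) + hop a v (bdry (Finsupp.single σ 1)) =
      (if ∀ e ∈ σ, v ∉ e then Finsupp.single σ 1 else 0) + ∑ w ∈ V, QQ a v w σ := by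
  by_cases hfree : ∀ e ∈ σ, v ∉ e
  · have h1 : ∑ w ∈ V, QQ a v w σ = 0 := by
      apply Finset.sum_eq_zero
      intro w _
      unfold QQ
      rw [if_neg]
      intro h
      exact hfree _ h (Sym2.mem_mk_left v w)
    have h2 : hop a v (bdry (Finsupp.single σ 1)) = wd s(a,v) (bdry (Finsupp.single σ 1)) := by
      rw [bdry_single, map_sum, map_sum]
      apply Finset.sum_congr rfl
      intro e _
      rw [map_smul, map_smul, hop_single, if_pos]
      intro f hf
      exact hfree f (Finset.mem_of_mem_erase hf)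
    rw [h1, h2, hop_single, if_pos hfree, if_pos hfree, bdry_wd_apply]
    abel
  · push Not at hfree
    obtain ⟨e0, he0, hve0⟩ := hfree
    obtain ⟨w0, rfl⟩ := Sym2.mem_iff_exists.mp hve0
    have hw0V : w0 ∈ V := (hσ.1 _ he0).2 w0 (Sym2.mem_mk_right v w0)
    have hnf : ¬ (∀ e ∈ σ, v ∉ e) := fun h => h _ he0 hve0
    have h1 : ∑ w ∈ V, QQ a v w σ = QQ a v w0 σ := by
      apply Finset.sum_eq_single w0
      · intro w _ hw
        unfold QQ
        rw [if_neg]
        intro h
        exact hw (mc_unique hσ h he0)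
      · intro h; exact absurd hw0V h
    rw [h1, if_neg hnf, zero_add, hop_single, if_neg hnf, map_zero, zero_add, bdry_single, map_sum]
    rw [Finset.sum_eq_single s(v,w0)]
    · rw [map_smul, hop_single, if_pos]
      · unfold QQ
        rw [if_pos he0]
      · intro f hf hvf
        rw [Finset.mem_erase] at hf
        exact hσ.2 f hf.2 _ he0 hf.1 v hvf hve0
    · intro e he hne
      rw [map_smul, hop_single, if_neg, smul_zero]
      intro h
      apply h s(v,w0) _ hve0
      rw [Finset.mem_erase]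
      exact ⟨hne.symm, he0⟩
    · intro h; exact absurd he0 h

omit [LinearOrder (Sym2 α)] in
open Classical in
lemma map_swap_fix {a w : α} {e : Sym2 α} (ha : a ∉ e) (hw : w ∉ e) :
    Sym2.map (Equiv.swap w a) e = e := by
  induction e using Sym2.ind with
  | _ x y =>
    rw [Sym2.mem_iff] at ha hw
    push Not at ha hw
    rw [Sym2.map_mk, Equiv.swap_apply_of_ne_of_ne hw.1.symm ha.1.symm,
      Equiv.swap_apply_of_ne_of_ne hw.2.symm ha.2.symm]

open Classical in
lemma lemmaB {V : Finset α} {a w : α} (ha : a ∉ V) {σ : Finset (Sym2 α)}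
    (hσ : σ ∈ matchingComplex (V : Set α)) :
    push (Sym2.map (Equiv.swap w a)) (Finsupp.single σ 1) =
      (if ∀ e ∈ σ, w ∉ e then Finsupp.single σ 1 else 0) + ∑ v ∈ V, QQ a v w σ := by
  have haσ : ∀ e ∈ σ, a ∉ e := by
    intro e he hae
    exact ha ((hσ.1 e he).2 a hae)
  by_cases hfree : ∀ e ∈ σ, w ∉ e
  · have h1 : ∑ v ∈ V, QQ a v w σ = 0 := by
      apply Finset.sum_eq_zero
      intro v _
      unfold QQ
      rw [if_neg]
      intro h
      exact hfree _ h (Sym2.mem_mk_right v w)
    rw [h1, if_pos hfree, add_zero]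
    apply push_id_on
    intro e he
    exact map_swap_fix (haσ e he) (hfree e he)
  · have hnf := hfree
    push Not at hfree
    obtain ⟨e0, he0, hwe0⟩ := hfree
    obtain ⟨v0, rfl⟩ := Sym2.mem_iff_exists.mp hwe0
    rw [Sym2.eq_swap] at he0
    have hwe0' : w ∈ s(v0, w) := Sym2.mem_mk_right v0 w
    have hv0V : v0 ∈ V := (hσ.1 _ he0).2 v0 (Sym2.mem_mk_left v0 w)
    have hv0w : v0 ≠ w := by
      intro h
      have := (hσ.1 _ he0).1
      rw [Sym2.mk_isDiag_iff] at this
      exact this h
    have h1 : ∑ v ∈ V, QQ a v w σ = QQ a v0 w σ := by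
      apply Finset.sum_eq_single v0
      · intro v _ hv
        unfold QQ
        rw [if_neg]
        intro h
        rw [Sym2.eq_swap] at h he0
        exact hv (mc_unique hσ h he0)
      · intro h; exact absurd hv0V h
    rw [h1, if_neg hnf, zero_add]
    have h2 : Finsupp.single σ (1:ℤ) = sg s(v0,w) (σ.erase s(v0,w)) • wd s(v0,w) (Finsupp.single (σ.erase s(v0,w)) 1) := by
      rw [← single_eq_wd (by simp), Finset.insert_erase he0]
    rw [h2, map_smul, push_wd, sg_erase_self]
    unfold QQ
    rw [if_pos he0]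
    have h3 : Sym2.map (Equiv.swap w a) s(v0,w) = s(a,v0) := by
      rw [Sym2.map_mk, Equiv.swap_apply_left, Equiv.swap_apply_of_ne_of_ne hv0w (fun h => ha (by rw [← h]; exact hv0V)),
        Sym2.eq_swap]
    rw [h3, push_id_on]
    intro e he
    rw [Finset.mem_erase] at he
    apply map_swap_fix (haσ e he.2)
    intro hwe
    exact hσ.2 e he.2 _ he0 he.1 w hwe hwe0'

open Classical in
lemma sum_identity {V : Finset α} {a : α} (ha : a ∉ V) {σ : Finset (Sym2 α)}
    (hσ : σ ∈ matchingComplex (V : Set α)) :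
    bdry (∑ v ∈ V, hop a v (Finsupp.single σ 1)) + ∑ v ∈ V, hop a v (bdry (Finsupp.single σ 1))
      = ∑ w ∈ V, push (Sym2.map (Equiv.swap w a)) (Finsupp.single σ 1) := by
  rw [map_sum, ← Finset.sum_add_distrib, Finset.sum_congr rfl (fun v _ => lemmaA hσ),
    Finset.sum_congr rfl (fun w _ => lemmaB ha hσ), Finset.sum_add_distrib, Finset.sum_add_distrib,
    Finset.sum_comm]

open Classical in
/-- the null-homotopy -/
noncomputable def homot (V : Finset α) (a b' b : α) : Ch (Sym2 α) →ₗ[ℤ] Ch (Sym2 α) :=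
  push (Sym2.map (Equiv.swap b a)) ∘ₗ (∑ v ∈ V, hop a v)
    - ∑ v ∈ V.erase b, wd s(b',v) ∘ₗ push (Sym2.map (Equiv.swap b a) ∘ Sym2.map (Equiv.swap v a))

open Classical in
lemma homot_identity {V : Finset α} {a b' b : α} (ha : a ∉ V) (hb : b ∈ V) {σ : Finset (Sym2 α)}
    (hσ : σ ∈ matchingComplex (V : Set α)) :
    bdry (homot V a b' b (Finsupp.single σ 1)) + homot V a b' b (bdry (Finsupp.single σ 1))
      = Finsupp.single σ 1 := by
  have happ : ∀ c, homot V a b' b c = push (Sym2.map (Equiv.swap b a)) (∑ v ∈ V, hop a v c)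
      - ∑ v ∈ V.erase b, wd s(b',v) (push (Sym2.map (Equiv.swap b a) ∘ Sym2.map (Equiv.swap v a)) c) := by
    intro c
    simp only [homot, LinearMap.sub_apply, LinearMap.comp_apply, LinearMap.sum_apply]
  rw [happ, happ, map_sub, bdry_push]
  have h1 := sum_identity ha hσ
  have h2 : push (Sym2.map (Equiv.swap b a)) (bdry (∑ v ∈ V, hop a v (Finsupp.single σ 1)))
      + push (Sym2.map (Equiv.swap b a)) (∑ v ∈ V, hop a v (bdry (Finsupp.single σ 1)))
      = ∑ w ∈ V, push (Sym2.map (Equiv.swap b a) ∘ Sym2.map (Equiv.swap w a)) (Finsupp.single σ 1) := by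
    rw [← map_add, h1, map_sum]
    apply Finset.sum_congr rfl
    intro w _
    rw [push_push]
  have h3 : bdry (∑ v ∈ V.erase b, wd s(b',v) (push (Sym2.map (Equiv.swap b a) ∘ Sym2.map (Equiv.swap v a)) (Finsupp.single σ 1)))
      + ∑ v ∈ V.erase b, wd s(b',v) (push (Sym2.map (Equiv.swap b a) ∘ Sym2.map (Equiv.swap v a)) (bdry (Finsupp.single σ 1)))
      = ∑ v ∈ V.erase b, push (Sym2.map (Equiv.swap b a) ∘ Sym2.map (Equiv.swap v a)) (Finsupp.single σ 1) := by
    rw [map_sum, ← Finset.sum_add_distrib]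
    apply Finset.sum_congr rfl
    intro v _
    rw [bdry_wd_apply, bdry_push]
    abel
  have h4 : ∑ w ∈ V, push (Sym2.map (Equiv.swap b a) ∘ Sym2.map (Equiv.swap w a)) (Finsupp.single σ 1)
      = push (Sym2.map (Equiv.swap b a) ∘ Sym2.map (Equiv.swap b a)) (Finsupp.single σ (1:ℤ))
        + ∑ v ∈ V.erase b, push (Sym2.map (Equiv.swap b a) ∘ Sym2.map (Equiv.swap v a)) (Finsupp.single σ 1) :=
    (Finset.add_sum_erase V _ hb).symm
  have h5 : push (Sym2.map (Equiv.swap b a) ∘ Sym2.map (Equiv.swap b a)) (Finsupp.single σ (1:ℤ)) = Finsupp.single σ 1 := by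
    apply push_id_on
    intro e _
    rw [Function.comp_apply, Sym2.map_map]
    have : (Equiv.swap b a : α → α) ∘ (Equiv.swap b a : α → α) = id := by
      funext x; simp
    rw [this, Sym2.map_id]; rfl
  rw [h4, h5] at h2
  have h6 : ∀ (A B C D S T : Ch (Sym2 α)), A + B = T + S → C + D = S → (A - C) + (B - D) = T := by
    intro A B C D S T e1 e2
    have : (A - C) + (B - D) = (A + B) - (C + D) := by abel
    rw [this, e1, e2]; abel
  exact h6 _ _ _ _ _ _ h2 h3

lemma mc_image {U U' : Set α} {π : α → α} (hπ : Function.Injective π) (h : ∀ x ∈ U, π x ∈ U')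
    {σ : Finset (Sym2 α)} (hσ : σ ∈ matchingComplex U) : σ.image (Sym2.map π) ∈ matchingComplex U' := by
  constructor
  · intro e he
    rw [Finset.mem_image] at he
    obtain ⟨f, hf, rfl⟩ := he
    obtain ⟨h1, h2⟩ := hσ.1 f hf
    constructor
    · rw [Sym2.isDiag_map hπ]; exact h1
    · intro x hx
      rw [Sym2.mem_map] at hx
      obtain ⟨y, hy, rfl⟩ := hx
      exact h y (h2 y hy)
  · intro e he f hf hne x hx hx'
    rw [Finset.mem_image] at he hf
    obtain ⟨e', he', rfl⟩ := he
    obtain ⟨f', hf', rfl⟩ := hf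
    rw [Sym2.mem_map] at hx hx'
    obtain ⟨y, hy, hyx⟩ := hx
    obtain ⟨y', hy', hyx'⟩ := hx'
    have : y = y' := hπ (hyx.trans hyx'.symm)
    subst this
    have hne' : e' ≠ f' := fun h => hne (by rw [h])
    exact hσ.2 e' he' f' hf' hne' y hy hy'

lemma mc_insert {U U' : Set α} (hUU' : U ⊆ U') {x y : α} (hx : x ∈ U') (hy : y ∈ U') (hxy : x ≠ y)
    {σ : Finset (Sym2 α)} (hσ : σ ∈ matchingComplex U) (hxσ : ∀ e ∈ σ, x ∉ e) (hyσ : ∀ e ∈ σ, y ∉ e) :
    insert s(x,y) σ ∈ matchingComplex U' := by
  constructor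
  · intro e he
    rw [Finset.mem_insert] at he
    rcases he with rfl | he
    · constructor
      · rw [Sym2.mk_isDiag_iff]; exact hxy
      · intro z hz
        rw [Sym2.mem_iff] at hz
        rcases hz with rfl | rfl
        · exact hx
        · exact hy
    · exact ⟨(hσ.1 e he).1, fun z hz => hUU' ((hσ.1 e he).2 z hz)⟩
  · intro e he f hf hne z hz hz'
    rw [Finset.mem_insert] at he hf
    rcases he with rfl | he
    · rcases hf with rfl | hf
      · exact hne rfl
      · rw [Sym2.mem_iff] at hz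
        rcases hz with rfl | rfl
        · exact hxσ f hf hz'
        · exact hyσ f hf hz'
    · rcases hf with rfl | hf
      · rw [Sym2.mem_iff] at hz'
        rcases hz' with rfl | rfl
        · exact hxσ e he hz
        · exact hyσ e he hz
      · exact hσ.2 e he f hf hne z hz hz'

omit [LinearOrder (Sym2 α)] in
lemma mc_mono {U U' : Set α} (h : U ⊆ U') : matchingComplex U ⊆ matchingComplex U' := by
  intro σ hσ
  exact ⟨fun e he => ⟨(hσ.1 e he).1, fun x hx => h ((hσ.1 e he).2 x hx)⟩, hσ.2⟩

open Classical in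
lemma hop_mem {V : Finset α} {a v : α} (ha : a ∉ V) (hv : v ∈ V) {d : ℤ} {c : Ch (Sym2 α)}
    (hc : c ∈ chains (matchingComplex (V : Set α)) d) :
    hop a v c ∈ chains (matchingComplex {x | x = a ∨ x ∈ V}) (d+1) := by
  apply map_chains (hop a v) _ hc
  intro σ h1 h2
  rw [hop_single]
  split_ifs with hfree
  · have haσ : ∀ e ∈ σ, a ∉ e := fun e he hae => ha ((h1.1 e he).2 a hae)
    rw [wd_single]
    split_ifs
    · exact Submodule.zero_mem _
    · apply Submodule.smul_mem
      apply single_mem_chains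
      · have hne : a ≠ v := fun h => ha (by rw [h]; exact hv)
        exact mc_insert (U := (V : Set α)) (U' := {x | x = a ∨ x ∈ V}) (fun x hx => Or.inr hx)
          (Or.inl rfl) (Or.inr hv) hne h1 haσ hfree
      · rw [Finset.card_insert_of_notMem]
        · push_cast; omega
        · intro h; exact haσ _ h (Sym2.mem_mk_left a v)
  · exact Submodule.zero_mem _

/-- General form of the theorem. -/
theorem matching_split {U V' : Set α} {a b' : α} (ha : a ∈ U) (hb' : b' ∈ U) (hab : a ≠ b')
    (hV' : ∀ x, x ∈ V' ↔ x ∈ U ∧ x ≠ a ∧ x ≠ b') (hfin : V'.Finite) (hne : V'.Nonempty)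
    {D : Set (Finset (Sym2 α))} (hD : ∀ σ, σ ∈ D ↔ σ ∈ matchingComplex U ∧ s(a,b') ∉ σ) (d : ℤ) :
    ∃ (i : redH D d →+ redH (matchingComplex U) d)
      (p : redH (matchingComplex U) d →+ redH (matchingComplex V') (d-1)),
    (∀ z : cycles D d, ∃ h : (z : Ch (Sym2 α)) ∈ cycles (matchingComplex U) d,
      i (cls D d z) = cls (matchingComplex U) d ⟨z, h⟩) ∧
    (∀ z : cycles (matchingComplex U) d,
      ∃ h : strip s(a,b') (z : Ch (Sym2 α)) ∈ cycles (matchingComplex V') (d-1),
        p (cls (matchingComplex U) d z) = cls (matchingComplex V') (d-1) ⟨strip s(a,b') z, h⟩) ∧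
    Function.Injective i ∧ Function.Exact i p ∧ Function.Surjective p ∧
    ∃ φ : redH (matchingComplex U) d ≃+ redH D d × redH (matchingComplex V') (d-1),
      (∀ x, φ (i x) = (x, 0)) ∧ (∀ y, (φ y).2 = p y) := by
  classical
  set V : Finset α := hfin.toFinset with hVdef
  have hVV' : (V : Set α) = V' := by simp [hVdef]
  have hmemV : ∀ x, x ∈ V ↔ x ∈ U ∧ x ≠ a ∧ x ≠ b' := by
    intro x
    rw [← hV', ← hVV']; simp
  have haV : a ∉ V := by rw [hmemV]; tauto
  have hb'V : b' ∉ V := by rw [hmemV]; tauto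
  obtain ⟨b, hb⟩ := hne
  have hbV : b ∈ V := by rw [← hVV'] at hb; exact_mod_cast hb
  have hba : b ≠ a := ((hmemV b).mp hbV).2.1
  have hbb' : b ≠ b' := ((hmemV b).mp hbV).2.2
  have hWU : {x | x = a ∨ x ∈ V} ⊆ U := by
    rintro x (rfl | hx)
    · exact ha
    · exact ((hmemV x).mp hx).1
  have hb'W : b' ∉ {x | x = a ∨ x ∈ V} := by
    rintro (h | h)
    · exact hab h.symm
    · exact hb'V h
  have hWD : matchingComplex {x | x = a ∨ x ∈ V} ⊆ D := by
    intro σ hσ
    rw [hD]
    refine ⟨mc_mono hWU hσ, fun h => ?_⟩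
    exact hb'W ((hσ.1 _ h).2 b' (Sym2.mem_mk_right a b'))
  apply split_of_nullhomotopy hD (fun σ hσ x _ => mc_erase hσ x) _ (homot V a b' b)
  · -- values
    intro d c hc
    rw [← hVV'] at hc
    simp only [homot, LinearMap.sub_apply, LinearMap.comp_apply, LinearMap.sum_apply]
    apply Submodule.sub_mem
    · rw [map_sum]
      apply Submodule.sum_mem
      intro v hv
      have h1 := hop_mem haV hv hc
      apply push_mem_chains _ _ h1
      · exact Sym2.map.injective (Equiv.injective _)
      · intro σ hσ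
        apply hWD
        apply mc_image (Equiv.injective _) _ hσ
        rintro x (rfl | hx)
        · rw [Equiv.swap_apply_right]; exact Or.inr hbV
        · by_cases hxb : x = b
          · subst hxb; rw [Equiv.swap_apply_left]; exact Or.inl rfl
          · rw [Equiv.swap_apply_of_ne_of_ne hxb (fun h => haV (by rw [← h]; exact hx))]; exact Or.inr hx
    · apply Submodule.sum_mem
      intro v hv
      rw [Finset.mem_erase] at hv
      have hva : v ≠ a := fun h => haV (by rw [← h]; exact hv.2)
      have hvb' : v ≠ b' := fun h => hb'V (by rw [← h]; exact hv.2)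
      have h1 : push (Sym2.map (Equiv.swap b a) ∘ Sym2.map (Equiv.swap v a)) c
          ∈ chains (matchingComplex {x | (x = a ∨ x ∈ V) ∧ x ≠ v}) d := by
        apply push_mem_chains _ _ hc
        · exact (Sym2.map.injective (Equiv.injective _)).comp (Sym2.map.injective (Equiv.injective _))
        · intro σ hσ
          have hcomp : (Sym2.map (Equiv.swap b a) ∘ Sym2.map (Equiv.swap v a) : Sym2 α → Sym2 α)
              = Sym2.map ((Equiv.swap b a : α → α) ∘ (Equiv.swap v a : α → α)) := by
            funext e; rw [Function.comp_apply, Sym2.map_map]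
          rw [hcomp]
          apply mc_image ((Equiv.injective _).comp (Equiv.injective _)) _ hσ
          intro x hx
          have hxV : x ∈ V := hx
          have hxa : x ≠ a := fun h => haV (by rw [← h]; exact hxV)
          rw [Function.comp_apply]
          by_cases hxv : x = v
          · rw [hxv, Equiv.swap_apply_left, Equiv.swap_apply_right]
            exact ⟨Or.inr hbV, hv.1.symm⟩
          · rw [Equiv.swap_apply_of_ne_of_ne hxv hxa]
            by_cases hxb : x = b
            · rw [hxb, Equiv.swap_apply_left]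
              exact ⟨Or.inl rfl, hva.symm⟩
            · rw [Equiv.swap_apply_of_ne_of_ne hxb hxa]
              exact ⟨Or.inr hxV, hxv⟩
      apply wd_mem_chains _ h1
      intro σ hσ _
      have hb'σ : ∀ e ∈ σ, b' ∉ e := fun e he h => hb'W ((hσ.1 e he).2 b' h).1
      have hvσ : ∀ e ∈ σ, v ∉ e := fun e he h => ((hσ.1 e he).2 v h).2 rfl
      rw [hD]
      constructor
      · apply mc_insert _ hb' ((hmemV v).mp hv.2).1 hvb'.symm hσ hb'σ hvσ
        intro x hx
        exact hWU hx.1
      · rw [Finset.mem_insert]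
        rintro (h | h)
        · have : a ∈ s(b', v) := by rw [← h]; exact Sym2.mem_mk_left a b'
          rw [Sym2.mem_iff] at this
          rcases this with h | h
          · exact hab h
          · exact hva h.symm
        · exact hb'σ _ h (Sym2.mem_mk_right a b')
  · -- homotopy identity
    intro d c hc
    rw [← hVV'] at hc
    have : (bdry ∘ₗ homot V a b' b + homot V a b' b ∘ₗ bdry - LinearMap.id : Ch (Sym2 α) →ₗ[ℤ] Ch (Sym2 α)) c
        ∈ (⊥ : Submodule ℤ (Ch (Sym2 α))) := by
      apply map_chains _ _ hc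
      intro σ h1 _
      simp only [LinearMap.sub_apply, LinearMap.add_apply, LinearMap.comp_apply, LinearMap.id_apply]
      rw [homot_identity haV hbV h1, sub_self]
      exact Submodule.zero_mem _
    rw [Submodule.mem_bot] at this
    simp only [LinearMap.sub_apply, LinearMap.add_apply, LinearMap.comp_apply, LinearMap.id_apply] at this
    exact sub_eq_zero.mp this
  · -- the link
    intro τ
    constructor
    · intro hτ
      have haτ : ∀ e ∈ τ, a ∉ e := fun e he h => ((hV' a).mp ((hτ.1 e he).2 a h)).2.1 rfl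
      have hb'τ : ∀ e ∈ τ, b' ∉ e := fun e he h => ((hV' b').mp ((hτ.1 e he).2 b' h)).2.2 rfl
      refine ⟨fun h => haτ _ h (Sym2.mem_mk_left a b'), ?_⟩
      exact mc_insert (fun x hx => ((hV' x).mp hx).1) ha hb' hab hτ haτ hb'τ
    · rintro ⟨h1, h2⟩
      constructor
      · intro e he
        refine ⟨(h2.1 e (Finset.mem_insert_of_mem he)).1, fun x hx => ?_⟩
        have hne' : e ≠ s(a,b') := fun h => h1 (h ▸ he)
        rw [hV']
        refine ⟨(h2.1 e (Finset.mem_insert_of_mem he)).2 x hx, ?_, ?_⟩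
        · rintro rfl
          exact h2.2 e (Finset.mem_insert_of_mem he) _ (Finset.mem_insert_self _ _) hne' x hx
            (Sym2.mem_mk_left x b')
        · rintro rfl
          exact h2.2 e (Finset.mem_insert_of_mem he) _ (Finset.mem_insert_self _ _) hne' x hx
            (Sym2.mem_mk_right a x)
      · intro e he f hf
        exact h2.2 e (Finset.mem_insert_of_mem he) f (Finset.mem_insert_of_mem hf)

end

end Pool.Agent.LibMatchingComplex
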